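import Pool.Agent.W145.ED.Moves

set_option autoImplicit false

namespace Pool.Agent.W145.ED

open Finset Classical

/-- A family of guard sets closed under answers meets every independent set in full. -/
theorem indep_sub {V : Type} [Fintype V] [DecidableEq V] (G : SimpleGraph V) (F : Set (Finset V))
    (hne : F.Nonempty)
    (hF : ∀ D ∈ F, ∀ v : V, ∃ u ∈ D, (u = v ∨ G.Adj u v) ∧ insert v (D.erase u) ∈ F)
    (S : Finset V) (hS : G.IsIndepSet S) : ∃ D ∈ F, S ⊆ D := by
  induction S using Finset.induction_on with
  | empty =>
    obtain ⟨D, hD⟩ := hne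
    exact ⟨D, hD, Finset.empty_subset _⟩
  | insert v S hv ih =>
    have hS' : G.IsIndepSet (S : Set V) := by
      intro a ha b hb hab
      exact hS (by simp only [Finset.coe_insert]; exact Set.mem_insert_of_mem _ ha)
        (by simp only [Finset.coe_insert]; exact Set.mem_insert_of_mem _ hb) hab
    obtain ⟨D, hD, hSD⟩ := ih hS'
    obtain ⟨u, hu, huv, hD'⟩ := hF D hD v
    refine ⟨_, hD', ?_⟩
    intro x hx
    rcases Finset.mem_insert.mp hx with rfl | hxS
    · exact Finset.mem_insert_self _ _
    · by_cases hxu : x = u
      · subst hxu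
        rcases huv with rfl | hadj
        · exact absurd hxS hv
        · exfalso
          exact hS (by simp only [Finset.coe_insert]; exact Set.mem_insert_of_mem _ hxS)
            (by simp only [Finset.coe_insert]; exact Set.mem_insert _ _) hadj.ne hadj
      · exact Finset.mem_insert_of_mem (Finset.mem_erase.mpr ⟨hxu, hSD hxS⟩)

variable {L I : Type} [Fintype L] [DecidableEq L] [Fintype I] [DecidableEq I]

/-- the adjacency relation of the graph -/
def adjR (val : I → L → Bool) : I ⊕ Option (L × Bool) → I ⊕ Option (L × Bool) → Prop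
  | .inl _, .inl _ => False
  | .inl i, .inr c => nb val i c
  | .inr c, .inl i => nb val i c
  | .inr (some p), .inr (some q) => p.1 = q.1 ∧ p.2 ≠ q.2
  | .inr none, .inr _ => False
  | .inr (some _), .inr none => False

/-- the graph -/
def gr (val : I → L → Bool) : SimpleGraph (I ⊕ Option (L × Bool)) where
  Adj := adjR val
  symm := ⟨by
    intro a b h
    rcases a with i | (_ | p) <;> rcases b with j | (_ | q) <;> simp only [adjR] at h ⊢
    · exact h
    · exact h
    · exact h
    · exact h
    · exact ⟨h.1.symm, h.2.symm⟩⟩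
  loopless := ⟨by
    intro a h
    rcases a with i | (_ | p) <;> simp only [adjR] at h
    exact h.2 rfl⟩

variable {val : I → L → Bool}

omit [Fintype L] [Fintype I] in
theorem gr_cliqueFree : (gr val).CliqueFree 3 := by
  intro s hs
  rw [SimpleGraph.is3Clique_iff] at hs
  obtain ⟨a, b, c, hab, hac, hbc, -⟩ := hs
  change adjR val a b at hab
  change adjR val a c at hac
  change adjR val b c at hbc
  have key : ∀ (i : I) (p q : L × Bool), p.1 = q.1 → p.2 ≠ q.2 → val i p.1 = p.2 → val i q.1 = q.2 →
      False := by
    intro i p q h1 h2 h3 h4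
    rw [h1, h4] at h3
    exact h2 h3.symm
  rcases a with i | (_ | p) <;> rcases b with j | (_ | q) <;> rcases c with k | (_ | r) <;>
    simp only [adjR, nb] at hab hac hbc
  · exact key i q r hbc.1 hbc.2 hab hac
  · exact key j p r hac.1 hac.2 hab hbc
  · exact key k p q hab.1 hab.2 hac hbc
  · obtain ⟨h1, h2⟩ := hab
    obtain ⟨h3, h4⟩ := hac
    obtain ⟨h5, h6⟩ := hbc
    revert h2 h4 h6
    cases p.2 <;> cases q.2 <;> cases r.2 <;> simp

/-- the closed family of guard sets -/
def fam (val : I → L → Bool) : Set (Finset (I ⊕ Option (L × Bool))) :=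
  {D | ∃ J T, Good val J T ∧ D = (Tᶜ).disjSum J}

theorem fam_nonempty (hC : Code val) : (fam val).Nonempty := by
  refine ⟨_, ∅, ∅, ⟨rfl, ⟨fun _ => none, by simp, by simp⟩, ?_, ?_, ?_⟩, rfl⟩
  · intro c _
    rcases c with _ | ⟨l, b⟩
    · have h : 0 < Fintype.card I := by rw [hC.cardI]; norm_num
      obtain ⟨i⟩ := Fintype.card_pos_iff.mp h
      exact ⟨i, by simp, trivial⟩
    · have h : 0 < (univ.filter (fun i : I => val i l = b)).card := by rw [hC.h1]; norm_num
      obtain ⟨i, hi⟩ := Finset.card_pos.mp h
      exact ⟨i, by simp, (Finset.mem_filter.mp hi).2⟩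
  · have := two_hubs (∅ : Finset (Option (L × Bool)))
    simp only [Finset.card_empty] at this
    omega
  · have := two_hubs (∅ : Finset (Option (L × Bool)))
    simp only [Finset.card_empty] at this
    intro h
    omega

theorem fam_card (hC : Code val) (D : Finset (I ⊕ Option (L × Bool))) (hD : D ∈ fam val) :
    D.card = 64 := by
  obtain ⟨J, T, hG, rfl⟩ := hD
  have h1 := hG.card
  have h2 := (hG.P21 hC).2.2
  rw [Finset.card_disjSum]
  omega

theorem fam_closed (hC : Code val) (D : Finset (I ⊕ Option (L × Bool))) (hD : D ∈ fam val)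
    (v : I ⊕ Option (L × Bool)) :
    ∃ u ∈ D, (u = v ∨ (gr val).Adj u v) ∧ insert v (D.erase u) ∈ fam val := by
  by_cases hv : v ∈ D
  · exact ⟨v, hv, Or.inl rfl, by rw [Finset.insert_erase hv]; exact hD⟩
  obtain ⟨J, T, hG, rfl⟩ := hD
  rcases v with t | c
  · have ht : t ∈ T := by
      by_contra h
      exact hv (Finset.inl_mem_disjSum.mpr (Finset.mem_compl.mpr h))
    obtain ⟨j, hj, hn, hG'⟩ := attackI hC hG t ht
    refine ⟨.inr j, Finset.inr_mem_disjSum.mpr hj, Or.inr hn, J.erase j, T.erase t, hG', ?_⟩
    ext x
    rcases x with i | c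
    · rw [Finset.mem_insert, Finset.mem_erase, Finset.inl_mem_disjSum, Finset.inl_mem_disjSum,
        Finset.mem_compl, Finset.mem_compl, Finset.mem_erase]
      constructor
      · rintro (h | h)
        · rw [Sum.inl.injEq] at h
          exact fun h2 => h2.1 h
        · exact fun h2 => h.2 h2.2
      · intro h
        by_cases hi : i = t
        · left; rw [hi]
        · right
          exact ⟨by simp, fun h2 => h ⟨hi, h2⟩⟩
    · rw [Finset.mem_insert, Finset.mem_erase, Finset.inr_mem_disjSum, Finset.inr_mem_disjSum,
        Finset.mem_erase]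
      constructor
      · rintro (h | h)
        · exact absurd h (by simp)
        · exact ⟨fun h2 => h.1 (by rw [h2]), h.2⟩
      · intro h
        right
        exact ⟨fun h2 => h.1 (Sum.inr.inj h2), h.2⟩
  · have hc : c ∉ J := fun h => hv (Finset.inr_mem_disjSum.mpr h)
    rcases attackC hC hG c hc with ⟨t, ht, hn, hG'⟩ | ⟨l, b, rfl, hbar, hG'⟩
    · refine ⟨.inl t, Finset.inl_mem_disjSum.mpr (Finset.mem_compl.mpr ht), Or.inr hn,
        insert c J, insert t T, hG', ?_⟩
      ext x
      rcases x with i | c'
      · rw [Finset.mem_insert, Finset.mem_erase, Finset.inl_mem_disjSum, Finset.inl_mem_disjSum,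
          Finset.mem_compl, Finset.mem_compl, Finset.mem_insert, not_or]
        constructor
        · rintro (h | h)
          · exact absurd h (by simp)
          · exact ⟨fun h2 => h.1 (by rw [h2]), h.2⟩
        · intro h
          right
          exact ⟨fun h2 => h.1 (Sum.inl.inj h2), h.2⟩
      · rw [Finset.mem_insert, Finset.mem_erase, Finset.inr_mem_disjSum, Finset.inr_mem_disjSum,
          Finset.mem_insert]
        constructor
        · rintro (h | h)
          · left; exact Sum.inr.inj h
          · right; exact h.2
        · rintro (h | h)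
          · left; rw [h]
          · right; exact ⟨by simp, h⟩
    · refine ⟨.inr (some (l, !b)), Finset.inr_mem_disjSum.mpr hbar, Or.inr ?_,
        _, T, hG', ?_⟩
      · change adjR val (.inr (some (l, !b))) (.inr (some (l, b)))
        exact ⟨rfl, not_ne_self b⟩
      · ext x
        rcases x with i | c'
        · rw [Finset.mem_insert, Finset.mem_erase, Finset.inl_mem_disjSum, Finset.inl_mem_disjSum]
          constructor
          · rintro (h | h)
            · exact absurd h (by simp)
            · exact h.2
          · intro h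
            right
            exact ⟨by simp, h⟩
        · rw [Finset.mem_insert, Finset.mem_erase, Finset.inr_mem_disjSum, Finset.inr_mem_disjSum,
            Finset.mem_insert, Finset.mem_erase]
          constructor
          · rintro (h | h)
            · left; exact Sum.inr.inj h
            · right; exact ⟨fun h2 => h.1 (by rw [h2]), h.2⟩
          · rintro (h | h)
            · left; rw [h]
            · right; exact ⟨fun h2 => h.1 (Sum.inr.inj h2), h.2⟩

theorem gr_indepNum (hC : Code val) : (gr val).indepNum = 64 := by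
  apply le_antisymm
  · obtain ⟨S, hS⟩ := (gr val).exists_isNIndepSet_indepNum
    obtain ⟨D, hD, hSD⟩ := indep_sub (gr val) (fam val) (fam_nonempty hC) (fam_closed hC) S hS.isIndepSet
    rw [← hS.card_eq, ← fam_card hC D hD]
    exact Finset.card_le_card hSD
  · have h : (gr val).IsIndepSet ((univ : Finset I).disjSum (∅ : Finset (Option (L × Bool))) :
        Finset (I ⊕ Option (L × Bool))) := by
      intro a ha b hb _ hadj
      rcases a with i | c
      · rcases b with j | c
        · exact hadj
        · rw [Finset.mem_coe, Finset.inr_mem_disjSum] at hb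
          simp at hb
      · rw [Finset.mem_coe, Finset.inr_mem_disjSum] at ha
        simp at ha
    have h2 := h.card_le_indepNum
    rw [Finset.card_disjSum, Finset.card_univ, hC.cardI] at h2
    simpa using h2

theorem gr_chromatic (hC : Code val) : ((gr val).indepNum : ℕ∞) < (gr val)ᶜ.chromaticNumber := by
  rw [gr_indepNum hC]
  by_contra hcon
  push Not at hcon
  have hcol : (gr val)ᶜ.Colorable 64 := SimpleGraph.chromaticNumber_le_iff_colorable.mp hcon
  obtain ⟨col⟩ := hcol
  have hcardV : Fintype.card (I ⊕ Option (L × Bool)) = 129 := by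
    rw [Fintype.card_sum, hC.cardI, Fintype.card_option, Fintype.card_prod, hC.cardL]
    simp
  obtain ⟨y, hy⟩ := Fintype.exists_lt_card_fiber_of_mul_lt_card (f := fun x => col x) (n := 2)
    (by rw [hcardV]; simp)
  rw [Finset.two_lt_card] at hy
  obtain ⟨a, ha, b, hb, c, hc, hab, hac, hbc⟩ := hy
  rw [Finset.mem_filter] at ha hb hc
  have hadj : ∀ x z, col x = y → col z = y → x ≠ z → (gr val).Adj x z := by
    intro x z hx hz hxz
    by_contra hno
    have h1 : (gr val)ᶜ.Adj x z := by
      rw [SimpleGraph.compl_adj]
      exact ⟨hxz, hno⟩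
    exact col.valid h1 (by rw [hx, hz])
  have h3 : (gr val).IsNClique 3 {a, b, c} := by
    rw [SimpleGraph.is3Clique_iff]
    exact ⟨a, b, c, hadj a b ha.2 hb.2 hab, hadj a c ha.2 hc.2 hac, hadj b c hb.2 hc.2 hbc, rfl⟩
  exact gr_cliqueFree _ h3

end Pool.Agent.W145.ED
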