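import Mathlib

set_option autoImplicit false

namespace Pool.Agent.W145.ED

open Finset

/-- The properties of the code that are used: 64 words, 32 coordinates, every coordinate is balanced, every two
different coordinates are independent, and every constant rectangle has at most 32 entries. -/
structure Code {L I : Type} [Fintype L] [DecidableEq L] [Fintype I] [DecidableEq I]
    (val : I → L → Bool) : Prop where
  cardL : Fintype.card L = 32
  cardI : Fintype.card I = 64
  h1 : ∀ (l : L) (b : Bool), (univ.filter (fun i : I => val i l = b)).card = 32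
  h2 : ∀ (l l' : L) (b b' : Bool), l ≠ l' →
    (univ.filter (fun i : I => val i l = b ∧ val i l' = b')).card = 16
  key : ∀ (B : Finset I) (Z : Finset L) (p : L → Bool), (∀ i ∈ B, ∀ l ∈ Z, val i l = p l) →
    B.card * Z.card ≤ 32

section key

variable {L I : Type} [Fintype L] [DecidableEq L] [Fintype I] [DecidableEq I]
  (val : I → L → Bool)

omit [Fintype L] [DecidableEq L] in
/-- Lindsey's lemma for codes closed under complements. -/
theorem key_of_compl (hI : Fintype.card I = 64)
    (h2 : ∀ (l l' : L) (b b' : Bool), l ≠ l' →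
      (univ.filter (fun i : I => val i l = b ∧ val i l' = b')).card = 16)
    (co : I → I) (hinj : Function.Injective co) (hco : ∀ i l, val (co i) l = !(val i l))
    (B : Finset I) (Z : Finset L) (p : L → Bool) (hB : ∀ i ∈ B, ∀ l ∈ Z, val i l = p l) :
    B.card * Z.card ≤ 32 := by
  classical
  rcases Z.eq_empty_or_nonempty with hZ | hZ
  · simp [hZ]
  obtain ⟨z, hz⟩ := hZ
  set e : I → L → ℤ := fun i l => if val i l = p l then 1 else -1 with he
  set S : I → ℤ := fun i => ∑ l ∈ Z, e i l with hS
  have hdiag : ∀ l, ∑ i : I, e i l * e i l = 64 := by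
    intro l
    have : ∀ i ∈ (univ : Finset I), e i l * e i l = 1 := by
      intro i _
      simp only [he]
      split_ifs <;> norm_num
    rw [Finset.sum_congr rfl this]
    simp [hI]
  have hoff : ∀ l l', l ≠ l' → ∑ i : I, e i l * e i l' = 0 := by
    intro l l' hne
    have hpt : ∀ i ∈ (univ : Finset I), e i l * e i l' =
        (if val i l = p l ∧ val i l' = p l' then (1:ℤ) else 0)
        + (if val i l = (!(p l)) ∧ val i l' = (!(p l')) then (1:ℤ) else 0)
        - (if val i l = p l ∧ val i l' = (!(p l')) then (1:ℤ) else 0)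
        - (if val i l = (!(p l)) ∧ val i l' = p l' then (1:ℤ) else 0) := by
      intro i _
      simp only [he]
      cases val i l <;> cases val i l' <;> cases p l <;> cases p l' <;> simp
    rw [Finset.sum_congr rfl hpt]
    rw [Finset.sum_sub_distrib, Finset.sum_sub_distrib, Finset.sum_add_distrib]
    rw [Finset.sum_boole, Finset.sum_boole, Finset.sum_boole, Finset.sum_boole]
    rw [h2 l l' _ _ hne, h2 l l' _ _ hne, h2 l l' _ _ hne, h2 l l' _ _ hne]
    norm_num
  have htot : ∑ i : I, S i ^ 2 = 64 * (Z.card : ℤ) := by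
    have h1 : ∀ i ∈ (univ : Finset I), S i ^ 2 = ∑ l ∈ Z, ∑ l' ∈ Z, e i l * e i l' := by
      intro i _
      simp only [hS, sq, Finset.sum_mul_sum]
    rw [Finset.sum_congr rfl h1, Finset.sum_comm]
    have h3 : ∀ l ∈ Z, ∑ i : I, ∑ l' ∈ Z, e i l * e i l' = 64 := by
      intro l hl
      rw [Finset.sum_comm]
      rw [Finset.sum_eq_single l]
      · exact hdiag l
      · intro l' _ hne
        exact hoff l l' (Ne.symm hne)
      · intro h; exact absurd hl h
    rw [Finset.sum_congr rfl h3]
    simp [mul_comm]
  have hSB : ∀ i ∈ B, S i = Z.card := by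
    intro i hi
    simp only [hS, he]
    rw [Finset.sum_congr rfl (g := fun _ => (1:ℤ))]
    · simp
    · intro l hl
      simp [hB i hi l hl]
  have hSC : ∀ i ∈ B.image co, S i = -(Z.card : ℤ) := by
    intro i hi
    obtain ⟨j, hj, rfl⟩ := Finset.mem_image.mp hi
    simp only [hS, he]
    rw [Finset.sum_congr rfl (g := fun _ => (-1:ℤ))]
    · simp
    · intro l hl
      have := hB j hj l hl
      rw [hco, this]
      simp
  have hdisj : Disjoint B (B.image co) := by
    rw [Finset.disjoint_left]
    intro i hi hi2
    obtain ⟨j, hj, rfl⟩ := Finset.mem_image.mp hi2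
    have h1 := hB _ hi z hz
    have h3 := hB j hj z hz
    rw [hco, h3] at h1
    simp at h1
  have hlow : ∑ i ∈ B ∪ B.image co, S i ^ 2 ≤ ∑ i : I, S i ^ 2 :=
    Finset.sum_le_sum_of_subset_of_nonneg (Finset.subset_univ _) (fun i _ _ => sq_nonneg _)
  rw [Finset.sum_union hdisj, htot] at hlow
  have e1 : ∑ i ∈ B, S i ^ 2 = (B.card : ℤ) * (Z.card : ℤ) ^ 2 := by
    rw [Finset.sum_congr rfl (g := fun _ => (Z.card : ℤ) ^ 2)]
    · simp
    · intro i hi; rw [hSB i hi]
  have e2 : ∑ i ∈ B.image co, S i ^ 2 = (B.card : ℤ) * (Z.card : ℤ) ^ 2 := by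
    rw [Finset.sum_congr rfl (g := fun _ => (Z.card : ℤ) ^ 2)]
    · simp [Finset.card_image_of_injective _ hinj]
    · intro i hi; rw [hSC i hi]; ring
  rw [e1, e2] at hlow
  have hZpos : (0:ℤ) < Z.card := by exact_mod_cast Finset.card_pos.mpr ⟨z, hz⟩
  have h5 : (B.card : ℤ) * Z.card ≤ 32 := by
    by_contra hcon
    push Not at hcon
    nlinarith
  exact_mod_cast h5

end key

/-! ### the concrete code -/

def par (n : ℕ) : Bool :=
  xor (n.testBit 0) (xor (n.testBit 1) (xor (n.testBit 2) (xor (n.testBit 3) (n.testBit 4))))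

def dot (a l : Fin 32) : Bool := par (a.val &&& l.val)

def cval (i : Fin 32 × Bool) (l : Fin 32) : Bool := xor (dot i.1 l) i.2

set_option maxRecDepth 100000 in
theorem dot_eq : ∀ l l' : Fin 32, l ≠ l' →
    (univ.filter (fun a : Fin 32 => dot a l = dot a l')).card = 16 := by
  decide +kernel

theorem dot_ne (l l' : Fin 32) (h : l ≠ l') :
    (univ.filter (fun a : Fin 32 => ¬ (dot a l = dot a l'))).card = 16 := by
  have h1 := dot_eq l l' h
  have h2 := Finset.card_filter_add_card_filter_not (s := (univ : Finset (Fin 32)))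
    (p := fun a => dot a l = dot a l')
  rw [h1] at h2
  simp at h2
  simpa using (by omega : (univ.filter (fun a : Fin 32 => ¬ (dot a l = dot a l'))).card = 16)

theorem cval_h1 (l : Fin 32) (b : Bool) :
    (univ.filter (fun i : Fin 32 × Bool => cval i l = b)).card = 32 := by
  have : (univ.filter (fun i : Fin 32 × Bool => cval i l = b))
      = (univ : Finset (Fin 32)).image (fun a => (a, xor (dot a l) b)) := by
    apply Finset.ext
    rintro ⟨a, s⟩
    constructor
    · intro h
      have h := (Finset.mem_filter.mp h).2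
      refine Finset.mem_image.mpr ⟨a, Finset.mem_univ _, ?_⟩
      simp only [cval] at h
      rw [← h]
      cases dot a l <;> cases s <;> rfl
    · intro h
      obtain ⟨a', -, h⟩ := Finset.mem_image.mp h
      obtain ⟨rfl, rfl⟩ := Prod.mk.inj h
      refine Finset.mem_filter.mpr ⟨Finset.mem_univ _, ?_⟩
      simp only [cval]
      cases dot a' l <;> cases b <;> rfl
  rw [this, Finset.card_image_of_injective]
  · simp
  · intro a a' h
    exact (Prod.mk.inj h).1

theorem bool_aux : ∀ (x y b b' : Bool), ¬ b = b' → ¬ x = y →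
    (x ^^ (x ^^ b)) = b ∧ (y ^^ (x ^^ b)) = b' := by
  decide

theorem cval_h2 (l l' : Fin 32) (b b' : Bool) (h : l ≠ l') :
    (univ.filter (fun i : Fin 32 × Bool => cval i l = b ∧ cval i l' = b')).card = 16 := by
  by_cases hb : b = b'
  · subst hb
    have : (univ.filter (fun i : Fin 32 × Bool => cval i l = b ∧ cval i l' = b))
        = (univ.filter (fun a : Fin 32 => dot a l = dot a l')).image
            (fun a => (a, xor (dot a l) b)) := by
      apply Finset.ext
      rintro ⟨a, s⟩
      constructor
      · intro h
        obtain ⟨h1, h2⟩ := (Finset.mem_filter.mp h).2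
        simp only [cval] at h1 h2
        refine Finset.mem_image.mpr ⟨a, Finset.mem_filter.mpr ⟨Finset.mem_univ _, ?_⟩, ?_⟩
        · revert h1 h2
          cases dot a l <;> cases dot a l' <;> cases s <;> cases b <;> simp
        · rw [← h1]
          cases dot a l <;> cases s <;> rfl
      · intro h
        obtain ⟨a', ha, h⟩ := Finset.mem_image.mp h
        obtain ⟨rfl, rfl⟩ := Prod.mk.inj h
        have ha := (Finset.mem_filter.mp ha).2
        refine Finset.mem_filter.mpr ⟨Finset.mem_univ _, ?_⟩
        simp only [cval, ← ha]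
        cases dot a' l <;> cases b <;> simp
    rw [this, Finset.card_image_of_injective]
    · exact dot_eq l l' h
    · intro a a' h
      exact (Prod.mk.inj h).1
  · have : (univ.filter (fun i : Fin 32 × Bool => cval i l = b ∧ cval i l' = b'))
        = (univ.filter (fun a : Fin 32 => ¬ (dot a l = dot a l'))).image
            (fun a => (a, xor (dot a l) b)) := by
      apply Finset.ext
      rintro ⟨a, s⟩
      constructor
      · intro h
        obtain ⟨h1, h2⟩ := (Finset.mem_filter.mp h).2
        simp only [cval] at h1 h2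
        refine Finset.mem_image.mpr ⟨a, Finset.mem_filter.mpr ⟨Finset.mem_univ _, ?_⟩, ?_⟩
        · intro he
          apply hb
          rw [← h1, ← h2, he]
        · rw [← h1]
          cases dot a l <;> cases s <;> rfl
      · intro h
        obtain ⟨a', ha, h⟩ := Finset.mem_image.mp h
        obtain ⟨rfl, rfl⟩ := Prod.mk.inj h
        have ha := (Finset.mem_filter.mp ha).2
        refine Finset.mem_filter.mpr ⟨Finset.mem_univ _, ?_⟩
        simp only [cval]
        exact bool_aux _ _ _ _ hb ha
    rw [this, Finset.card_image_of_injective]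
    · exact dot_ne l l' h
    · intro a a' h
      exact (Prod.mk.inj h).1

theorem code_cval : Code cval where
  cardL := by simp
  cardI := by simp
  h1 := cval_h1
  h2 := cval_h2
  key := by
    intro B Z p hB
    refine key_of_compl cval (by simp) cval_h2 (fun i => (i.1, !i.2)) ?_ ?_ B Z p hB
    · rintro ⟨a, s⟩ ⟨a', s'⟩ h
      simpa using h
    · rintro ⟨a, s⟩ l
      simp only [cval]
      cases dot a l <;> cases s <;> rfl

end Pool.Agent.W145.ED
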