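import Pool.Agent.W145.ED.Code

set_option autoImplicit false

namespace Pool.Agent.W145.ED

open Finset Classical

variable {L I : Type} [Fintype L] [DecidableEq L] [Fintype I] [DecidableEq I]

/-- adjacency between a word and a vertex of the other side -/
def nb (val : I → L → Bool) (i : I) : Option (L × Bool) → Prop
  | none => True
  | some p => val i p.1 = p.2

/-- number of words of `T` with value `b` at `l` -/
noncomputable def tc (val : I → L → Bool) (T : Finset I) (l : L) (b : Bool) : ℕ :=
  (T.filter (fun i => val i l = b)).card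

variable {val : I → L → Bool}

omit [Fintype L] [DecidableEq L] [Fintype I] [DecidableEq I] in
theorem tc_add (T : Finset I) (l : L) (b : Bool) : tc val T l b + tc val T l (!b) = T.card := by
  unfold tc
  rw [← Finset.card_filter_add_card_filter_not (s := T) (p := fun i => val i l = b)]
  congr 2
  ext i
  simp only [Finset.mem_filter]
  cases val i l <;> cases b <;> simp

theorem tc_compl (hC : Code val) (T : Finset I) (l : L) (b : Bool) :
    tc val Tᶜ l b + tc val T l b = 32 := by
  unfold tc
  rw [← hC.h1 l b, ← Finset.card_union_of_disjoint]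
  · congr 1
    ext i
    simp only [Finset.mem_union, Finset.mem_filter, Finset.mem_compl, Finset.mem_univ, true_and]
    tauto
  · rw [Finset.disjoint_left]
    intro i hi hi2
    simp only [Finset.mem_filter, Finset.mem_compl] at hi hi2
    exact hi.1 hi2.1

theorem tc_two (hC : Code val) (T : Finset I) {l l' : L} (b b' : Bool) (h : l ≠ l') :
    tc val T l b + tc val T l' b' ≤ T.card + 16 := by
  unfold tc
  rw [← Finset.card_union_add_card_inter]
  have h1 : (T.filter (fun i => val i l = b) ∪ T.filter (fun i => val i l' = b')).card ≤ T.card := by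
    apply Finset.card_le_card
    intro i hi
    simp only [Finset.mem_union, Finset.mem_filter] at hi
    tauto
  have h2 : (T.filter (fun i => val i l = b) ∩ T.filter (fun i => val i l' = b')).card ≤ 16 := by
    rw [← hC.h2 l l' b b' h]
    apply Finset.card_le_card
    intro i hi
    simp only [Finset.mem_inter, Finset.mem_filter, Finset.mem_univ, true_and] at hi ⊢
    tauto
  omega

omit [Fintype L] [DecidableEq L] [Fintype I] [DecidableEq I] in
theorem tc_mono {S T : Finset I} (h : S ⊆ T) (l : L) (b : Bool) : tc val S l b ≤ tc val T l b := by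
  unfold tc
  exact Finset.card_le_card (Finset.filter_subset_filter _ h)

omit [Fintype L] [DecidableEq L] in
theorem tc_insert_compl_same {T : Finset I} {t : I} {l : L} {b : Bool} (h : val t l ≠ b) :
    tc val (insert t T)ᶜ l b = tc val Tᶜ l b := by
  unfold tc
  congr 1
  ext i
  simp only [Finset.mem_filter, Finset.mem_compl, Finset.mem_insert, not_or]
  constructor
  · rintro ⟨⟨_, h2⟩, h3⟩; exact ⟨h2, h3⟩
  · rintro ⟨h2, h3⟩
    refine ⟨⟨?_, h2⟩, h3⟩
    rintro rfl
    exact h h3

omit [Fintype L] [DecidableEq L] in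
theorem tc_insert_compl_le {T : Finset I} {t : I} {l : L} {b : Bool} :
    tc val Tᶜ l b ≤ tc val (insert t T)ᶜ l b + 1 := by
  unfold tc
  have : Tᶜ.filter (fun i => val i l = b) ⊆ insert t ((insert t T)ᶜ.filter (fun i => val i l = b)) := by
    intro i hi
    simp only [Finset.mem_filter, Finset.mem_compl, Finset.mem_insert, not_or] at hi ⊢
    tauto
  exact (Finset.card_le_card this).trans (Finset.card_insert_le _ _)

omit [Fintype L] [DecidableEq L] [Fintype I] [DecidableEq I] in
theorem tc_pos {T : Finset I} {l : L} {b : Bool} : 1 ≤ tc val T l b ↔ ∃ i ∈ T, val i l = b := by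
  unfold tc
  rw [Nat.one_le_iff_ne_zero, ← Nat.pos_iff_ne_zero, Finset.card_pos]
  constructor
  · rintro ⟨i, hi⟩
    exact ⟨i, (Finset.mem_filter.mp hi).1, (Finset.mem_filter.mp hi).2⟩
  · rintro ⟨i, hi, h⟩
    exact ⟨i, Finset.mem_filter.mpr ⟨hi, h⟩⟩

/-- the key inequality in terms of guards without neighbours -/
theorem key' (hC : Code val) (B : Finset I) (W : Finset (Option (L × Bool))) (hB : B.Nonempty)
    (h : ∀ t ∈ B, ∀ c ∈ W, ¬ nb val t c) : B.card * W.card ≤ 32 := by
  obtain ⟨t0, ht0⟩ := hB
  set Z : Finset L := univ.filter (fun l => ∃ b, some (l, b) ∈ W) with hZ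
  have h1 : W ⊆ Z.image (fun l => some (l, !(val t0 l))) := by
    intro c hc
    rcases c with _ | ⟨l, b⟩
    · exact absurd trivial (h t0 ht0 none hc)
    · have h2 : ¬ (val t0 l = b) := h t0 ht0 _ hc
      refine Finset.mem_image.mpr ⟨l, Finset.mem_filter.mpr ⟨Finset.mem_univ _, b, hc⟩, ?_⟩
      have h3 : (!(val t0 l)) = b := by
        revert h2
        cases val t0 l <;> cases b <;> simp
      rw [h3]
  have h2 : W.card ≤ Z.card := (Finset.card_le_card h1).trans Finset.card_image_le
  have h3 : B.card * Z.card ≤ 32 := by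
    apply hC.key B Z (fun l => val t0 l)
    intro i hi l hl
    obtain ⟨-, b, hb⟩ := Finset.mem_filter.mp hl
    have e1 : ¬ (val t0 l = b) := h t0 ht0 _ hb
    have e2 : ¬ (val i l = b) := h i hi _ hb
    revert e1 e2
    cases val t0 l <;> cases val i l <;> cases b <;> simp
  exact (Nat.mul_le_mul_left _ h2).trans h3

/-- Hall's condition for large guard sets -/
theorem mat_high (hC : Code val) {J : Finset (Option (L × Bool))} {T : Finset I}
    (hcard : J.card = T.card) (h18 : 18 ≤ T.card)
    (hJ : ∀ c ∈ J, ∃ t ∈ T, nb val t c) (hT : ∀ t ∈ T, ∃ c ∈ J, nb val t c) :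
    ∃ φ : I → Option (L × Bool), (∀ t ∈ T, φ t ∈ J ∧ nb val t (φ t)) ∧ Set.InjOn φ T := by
  have hall := (Finset.all_card_le_biUnion_card_iff_exists_injective
    (fun x : {t // t ∈ T} => J.filter (fun c => nb val x.1 c))).mp ?_
  · obtain ⟨f, hf, hf2⟩ := hall
    refine ⟨fun i => if h : i ∈ T then f ⟨i, h⟩ else none, ?_, ?_⟩
    · intro t ht
      simp only [ht, dif_pos]
      exact Finset.mem_filter.mp (hf2 ⟨t, ht⟩)
    · intro a ha b hb hab
      have ha' : a ∈ T := ha
      have hb' : b ∈ T := hb
      simp only [ha', hb', dif_pos] at hab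
      have := hf hab
      exact congrArg Subtype.val this
  · intro s
    by_contra hcon
    push Not at hcon
    set N := s.biUnion (fun x : {t // t ∈ T} => J.filter (fun c => nb val x.1 c)) with hN
    set B : Finset I := s.map ⟨Subtype.val, Subtype.val_injective⟩ with hBdef
    have hBc : B.card = s.card := Finset.card_map _
    have hBT : B ⊆ T := by
      intro i hi
      obtain ⟨x, -, rfl⟩ := Finset.mem_map.mp hi
      exact x.2
    have hNJ : N ⊆ J := by
      intro c hc
      obtain ⟨x, -, hx⟩ := Finset.mem_biUnion.mp hc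
      exact (Finset.mem_filter.mp hx).1
    have hsne : s.Nonempty := by
      rw [Finset.nonempty_iff_ne_empty]
      rintro rfl
      simp at hcon
    have hBne : B.Nonempty := by
      rw [hBdef]; exact hsne.map
    set W := J \ N with hW
    have hWc : W.card + N.card = J.card := by
      rw [hW, Finset.card_sdiff_add_card_eq_card hNJ]
    have hWno : ∀ t ∈ B, ∀ c ∈ W, ¬ nb val t c := by
      intro t ht c hc hnb
      obtain ⟨hcJ, hcN⟩ := Finset.mem_sdiff.mp hc
      apply hcN
      obtain ⟨x, hx, rfl⟩ := Finset.mem_map.mp ht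
      exact Finset.mem_biUnion.mpr ⟨x, hx, Finset.mem_filter.mpr ⟨hcJ, hnb⟩⟩
    have hk := key' hC B W hBne hWno
    have hBle : B.card ≤ T.card := Finset.card_le_card hBT
    have hBpos : 1 ≤ B.card := hBne.card_pos
    have hsum : T.card + 1 ≤ B.card + W.card := by omega
    have hWpos : 1 ≤ W.card := by omega
    have hcase : B.card = 1 ∨ W.card = 1 := by
      by_contra hc
      push Not at hc
      obtain ⟨b', hb'⟩ := Nat.exists_eq_add_of_le (show 2 ≤ B.card by omega)
      obtain ⟨w', hw'⟩ := Nat.exists_eq_add_of_le (show 2 ≤ W.card by omega)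
      rw [hb', hw'] at hk
      rw [hb', hw'] at hsum
      nlinarith [Nat.zero_le (b' * w')]
    rcases hcase with h | h
    · -- `B = {t}` and `W = J`
      obtain ⟨t, ht⟩ := hBne
      have hWJ : W = J := Finset.eq_of_subset_of_card_le Finset.sdiff_subset (by omega)
      obtain ⟨c, hc, hnb⟩ := hT t (hBT ht)
      exact hWno t ht c (hWJ ▸ hc) hnb
    · have hBT' : B = T := Finset.eq_of_subset_of_card_le hBT (by omega)
      obtain ⟨c, hc⟩ := Finset.card_pos.mp hWpos
      obtain ⟨t, ht, hnb⟩ := hJ c (Finset.mem_sdiff.mp hc).1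
      exact hWno t (hBT' ▸ ht) c hc hnb

/-- choice of a word for a move from the independent side -/
theorem select (hC : Code val) {T : Finset I} (h21 : 21 ≤ Tᶜ.card) (c : Option (L × Bool))
    (hc : ∃ i, i ∉ T ∧ nb val i c) :
    ∃ t, t ∉ T ∧ nb val t c ∧
      ∀ l b, (∀ b', c ≠ some (l, b')) → min (tc val Tᶜ l b) 2 ≤ tc val (insert t T)ᶜ l b := by
  by_cases hex : ∃ l b, (∀ b', c ≠ some (l, b')) ∧ tc val Tᶜ l b ≤ 2
  · obtain ⟨l0, b0, hne, hle⟩ := hex
    have huniq : ∀ l b, l ≠ l0 → 3 ≤ tc val Tᶜ l b := by
      intro l b hl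
      by_contra hlt
      have e1 := tc_two hC Tᶜ (!b) (!b0) hl
      have e2 := tc_add (val := val) Tᶜ l b
      have e3 := tc_add (val := val) Tᶜ l0 b0
      omega
    have hex2 : ∃ t, t ∉ T ∧ nb val t c ∧ val t l0 ≠ b0 := by
      by_contra hno
      push Not at hno
      have hsub : Tᶜ.filter (fun i => nb val i c) ⊆ Tᶜ.filter (fun i => val i l0 = b0) := by
        intro i hi
        obtain ⟨h1, h2⟩ := Finset.mem_filter.mp hi
        exact Finset.mem_filter.mpr ⟨h1, hno i (Finset.mem_compl.mp h1) h2⟩
      have h3 : (Tᶜ.filter (fun i => nb val i c)).card ≤ 2 :=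
        (Finset.card_le_card hsub).trans hle
      rcases c with _ | ⟨l, b⟩
      · have : Tᶜ.filter (fun i => nb val i (none : Option (L × Bool))) = Tᶜ := by
          apply Finset.filter_true_of_mem
          intro i _; exact trivial
        rw [this] at h3
        omega
      · have hl : l ≠ l0 := by
          rintro rfl
          exact hne b rfl
        have h4 := huniq l b hl
        have h5 : (Tᶜ.filter (fun i => nb val i (some (l, b)))).card = tc val Tᶜ l b := by
          unfold tc
          congr 1
          ext i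
          rw [Finset.mem_filter, Finset.mem_filter]
          rfl
        omega
    obtain ⟨t, ht, hnb, hv⟩ := hex2
    refine ⟨t, ht, hnb, ?_⟩
    intro l b _
    by_cases hl : l = l0
    · subst hl
      by_cases hb : b = b0
      · subst hb
        rw [tc_insert_compl_same hv]
        exact min_le_left _ _
      · have e1 := tc_insert_compl_le (val := val) (T := T) (t := t) (l := l) (b := b)
        have e3 := tc_add (val := val) Tᶜ l b0
        have e4 : (!b0) = b := by revert hb; cases b0 <;> cases b <;> simp
        rw [e4] at e3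
        omega
    · have e1 := tc_insert_compl_le (val := val) (T := T) (t := t) (l := l) (b := b)
      have e2 := huniq l b hl
      omega
  · push Not at hex
    obtain ⟨t, ht, hnb⟩ := hc
    refine ⟨t, ht, hnb, ?_⟩
    intro l b hb
    have e1 := tc_insert_compl_le (val := val) (T := T) (t := t) (l := l) (b := b)
    have e2 := hex l b hb
    omega

end Pool.Agent.W145.ED
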