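import Pool.Agent.W145.ED.Strat

set_option autoImplicit false

namespace Pool.Agent.W145.ED

open Finset Classical

variable {L I : Type} [Fintype L] [DecidableEq L] [Fintype I] [DecidableEq I]
variable {val : I → L → Bool}

theorem not_ne_self (b : Bool) : (!b) ≠ b := by cases b <;> simp

/-- a guard moves inside a pair -/
theorem toggle (hC : Code val) {J : Finset (Option (L × Bool))} {T : Finset I} (hG : Good val J T)
    (h18 : 18 ≤ T.card) (l : L) (b : Bool) (hc : some (l, b) ∉ J) (hbar : some (l, !b) ∈ J)
    (h1 : 1 ≤ tc val T l b) (h2 : 1 ≤ tc val Tᶜ l (!b)) (h3 : none ∈ J ∨ (hubs J).Nonempty) :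
    Good val (insert (some (l, b)) (J.erase (some (l, !b)))) T := by
  have hlh : l ∉ hubs J := fun h => hc (mem_hubs.mp h b)
  have hmem : ∀ x, x ∈ insert (some (l, b)) (J.erase (some (l, !b))) ↔
      x = some (l, b) ∨ (x ≠ some (l, !b) ∧ x ∈ J) := by
    intro x
    rw [Finset.mem_insert, Finset.mem_erase]
  have hhubs : hubs (insert (some (l, b)) (J.erase (some (l, !b)))) = hubs J := by
    ext l'
    rw [mem_hubs, mem_hubs]
    by_cases hl : l' = l
    · subst hl
      constructor
      · intro h
        rcases (hmem _).mp (h (!b)) with h4 | h4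
        · exfalso
          simp only [Option.some.injEq, Prod.mk.injEq, true_and] at h4
          exact not_ne_self b h4
        · exact absurd rfl h4.1
      · intro h
        exact absurd (h b) hc
    · constructor
      · intro h b'
        rcases (hmem _).mp (h b') with h4 | h4
        · exfalso
          simp only [Option.some.injEq, Prod.mk.injEq] at h4
          exact hl h4.1
        · exact h4.2
      · intro h b'
        refine (hmem _).mpr (Or.inr ⟨?_, h b'⟩)
        intro h4
        simp only [Option.some.injEq, Prod.mk.injEq] at h4
        exact hl h4.1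
  have hcard : (insert (some (l, b)) (J.erase (some (l, !b)))).card = T.card := by
    rw [Finset.card_insert_of_notMem, Finset.card_erase_of_mem hbar, hG.card]
    · have : 1 ≤ T.card := by omega
      omega
    · intro h
      exact hc (Finset.mem_of_mem_erase h)
  refine ⟨hcard, ?_, ?_, ?_, ?_⟩
  · apply mat_high hC hcard h18
    · intro x hx
      rcases (hmem _).mp hx with rfl | h4
      · obtain ⟨t, ht, hv⟩ := tc_pos.mp h1
        exact ⟨t, ht, hv⟩
      · exact hG.hJ x h4.2
    · intro t ht
      rcases h3 with h3 | ⟨h, hh⟩
      · exact ⟨none, (hmem _).mpr (Or.inr ⟨by simp, h3⟩), trivial⟩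
      · refine ⟨some (h, val t h), (hmem _).mpr (Or.inr ⟨?_, mem_hubs.mp hh _⟩), rfl⟩
        intro h4
        simp only [Option.some.injEq, Prod.mk.injEq] at h4
        exact hlh (h4.1 ▸ hh)
  · intro x hx
    rw [hmem, not_or] at hx
    by_cases h4 : x = some (l, !b)
    · subst h4
      obtain ⟨i, hi, hv⟩ := tc_pos.mp h2
      exact ⟨i, Finset.mem_compl.mp hi, hv⟩
    · apply hG.dom
      intro h5
      exact hx.2 ⟨h4, h5⟩
  · rw [hhubs]; exact hG.fc
  · rw [hhubs]
    intro h10 l' hl'
    obtain ⟨f1, f2⟩ := hG.fs h10 l' hl'
    refine ⟨f1, fun hemp => f2 ?_⟩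
    intro b' hb'
    by_cases hl : l' = l
    · subst hl
      exact hemp b ((hmem _).mpr (Or.inl rfl))
    · apply hemp b'
      refine (hmem _).mpr (Or.inr ⟨?_, hb'⟩)
      intro h4
      simp only [Option.some.injEq, Prod.mk.injEq] at h4
      exact hl h4.1

theorem hubs_insert_of_pair {J : Finset (Option (L × Bool))} (l : L) (b : Bool)
    (hbar : some (l, !b) ∈ J) : hubs (insert (some (l, b)) J) = insert l (hubs J) := by
  ext l'
  rw [Finset.mem_insert, mem_hubs, mem_hubs]
  constructor
  · intro h
    by_cases hl : l' = l
    · exact Or.inl hl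
    · right
      intro b'
      rcases Finset.mem_insert.mp (h b') with h4 | h4
      · exfalso
        simp only [Option.some.injEq, Prod.mk.injEq] at h4
        exact hl h4.1
      · exact h4
  · rintro (rfl | h)
    · intro b'
      by_cases hb : b' = b
      · subst hb; exact Finset.mem_insert_self _ _
      · have : b' = !b := by revert hb; cases b <;> cases b' <;> simp
        rw [this]
        exact Finset.mem_insert_of_mem hbar
    · intro b'
      exact Finset.mem_insert_of_mem (h b')

theorem hubs_insert_of_not {J : Finset (Option (L × Bool))} (c : Option (L × Bool))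
    (hp : ¬ ∃ l b, c = some (l, b) ∧ some (l, !b) ∈ J) : hubs (insert c J) = hubs J := by
  ext l'
  rw [mem_hubs, mem_hubs]
  constructor
  · intro h b'
    rcases Finset.mem_insert.mp (h b') with h4 | h4
    · exfalso
      apply hp
      refine ⟨l', b', h4.symm, ?_⟩
      rcases Finset.mem_insert.mp (h (!b')) with h5 | h5
      · exfalso
        rw [← h4] at h5
        simp only [Option.some.injEq, Prod.mk.injEq, true_and] at h5
        exact not_ne_self b' h5
      · exact h5
    · exact h4
  · intro h b'
    exact Finset.mem_insert_of_mem (h b')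

/-- answer to an attack on the side of the pairs -/
theorem attackC (hC : Code val) {J : Finset (Option (L × Bool))} {T : Finset I} (hG : Good val J T)
    (c : Option (L × Bool)) (hc : c ∉ J) :
    (∃ t, t ∉ T ∧ nb val t c ∧ Good val (insert c J) (insert t T)) ∨
    (∃ l b, c = some (l, b) ∧ some (l, !b) ∈ J ∧
      Good val (insert c (J.erase (some (l, !b)))) T) := by
  obtain ⟨h21, h43, h64⟩ := hG.P21 hC
  obtain ⟨t, ht, hnb, hsel⟩ := select hC h21 c (hG.dom c hc)
  by_cases hp : ∃ l b, c = some (l, b) ∧ some (l, !b) ∈ J
  · obtain ⟨l, b, rfl, hbar⟩ := hp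
    have hlh : l ∉ hubs J := fun h => hc (mem_hubs.mp h b)
    have hhubs := hubs_insert_of_pair (J := J) l b hbar
    by_cases hK : T.card ≤ 18
    · left
      have h2 := two_hubs (insert (some (l, b)) J)
      rw [Finset.card_insert_of_notMem hc, hG.card] at h2
      refine ⟨t, ht, hnb, imove hG h21 _ hc t ht hnb hsel (by omega) ?_⟩
      intro h10
      omega
    · by_cases htog : 1 ≤ tc val T l b ∧ 1 ≤ tc val Tᶜ l (!b) ∧ (none ∈ J ∨ (hubs J).Nonempty)
      · right
        exact ⟨l, b, rfl, hbar, toggle hC hG (by omega) l b hc hbar htog.1 htog.2.1 htog.2.2⟩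
      · left
        have hkey : (hubs J).card ≤ 9 ∧ ((hubs J).card = 9 →
            ∀ l', l' ≠ l → ∀ b', 2 ≤ tc val T l' b' ∧ 2 ≤ tc val Tᶜ l' b') := by
          have hfc := hG.fc
          have q1 := tc_add (val := val) T l b
          have q2 := tc_compl hC T l b
          have q3 := tc_compl hC T l (!b)
          by_cases ha : tc val T l b = 0
          · constructor
            · by_contra hcon
              have h10 : (hubs J).card = 10 := by omega
              have := ((hG.fs h10 l hlh).1 b).1
              omega
            · intro _ l' hl' b'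
              have r1 := tc_two hC T (!b) (!b') (Ne.symm hl')
              have r2 := tc_add (val := val) T l' b'
              have r3 := tc_two hC Tᶜ b (!b') (Ne.symm hl')
              have r4 := tc_add (val := val) Tᶜ l' b'
              omega
          · by_cases hb : tc val Tᶜ l (!b) = 0
            · have q4 := tc_add (val := val) Tᶜ l b
              constructor
              · by_contra hcon
                have h10 : (hubs J).card = 10 := by omega
                have := ((hG.fs h10 l hlh).1 (!b)).2
                omega
              · intro _ l' hl' b'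
                have r1 := tc_two hC T (!b) (!b') (Ne.symm hl')
                have r2 := tc_add (val := val) T l' b'
                have r3 := tc_two hC Tᶜ b (!b') (Ne.symm hl')
                have r4 := tc_add (val := val) Tᶜ l' b'
                omega
            · have h0 : hubs J = ∅ := by
                by_contra hne
                exact htog ⟨by omega, by omega, Or.inr (Finset.nonempty_iff_ne_empty.mpr hne)⟩
              rw [h0]
              simp
        have hcardhub : (insert l (hubs J)).card = (hubs J).card + 1 :=
          Finset.card_insert_of_notMem hlh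
        refine ⟨t, ht, hnb, imove hG h21 _ hc t ht hnb hsel ?_ ?_⟩
        · rw [hhubs, hcardhub]; omega
        · rw [hhubs, hcardhub]
          intro h10 l' hl'
          rw [Finset.mem_insert, not_or] at hl'
          have h9 : (hubs J).card = 9 := by omega
          have hne : ∀ b'', (some (l, b) : Option (L × Bool)) ≠ some (l', b'') := by
            intro b'' h
            simp only [Option.some.injEq, Prod.mk.injEq] at h
            exact hl'.1 h.1.symm
          have hg : ∀ b', 2 ≤ tc val (insert t T) l' b' ∧ 2 ≤ tc val (insert t T)ᶜ l' b' := by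
            intro b'
            have s1 := hkey.2 h9 l' hl'.1 b'
            have s2 := hsel l' b' hne
            have s3 := tc_mono (val := val) (Finset.subset_insert t T) l' b'
            omega
          refine ⟨fun b' => ⟨(hg b').1, by have := (hg b').2; omega⟩, fun _ b' => (hg b').2⟩
  · left
    have hhubs := hubs_insert_of_not (J := J) c hp
    refine ⟨t, ht, hnb, imove hG h21 _ hc t ht hnb hsel ?_ ?_⟩
    · rw [hhubs]; exact hG.fc
    · rw [hhubs]
      intro h10 l' hl'
      obtain ⟨f1, f2⟩ := hG.fs h10 l' hl'
      refine ⟨fun b' => ⟨(f1 b').1.trans (tc_mono (Finset.subset_insert t T) l' b'), ?_⟩, ?_⟩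
      · by_cases hpp : ∀ b'', c ≠ some (l', b'')
        · have s2 := hsel l' b' hpp
          have s1 := (f1 b').2
          omega
        · push Not at hpp
          obtain ⟨b'', hb''⟩ := hpp
          have hemp : ∀ b, some (l', b) ∉ J := by
            intro b hb
            by_cases hbb : b = b''
            · subst hbb; exact hc (hb'' ▸ hb)
            · have : b = !b'' := by revert hbb; cases b <;> cases b'' <;> simp
              exact hp ⟨l', b'', hb'', this ▸ hb⟩
          have s1 := f2 hemp b'
          have s3 := tc_insert_compl_le (val := val) (T := T) (t := t) (l := l') (b := b')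
          omega
      · intro hemp b'
        have hpp : ∀ b'', c ≠ some (l', b'') := by
          intro b'' h
          apply hemp b''
          rw [← h]
          exact Finset.mem_insert_self _ _
        have hemp' : ∀ b, some (l', b) ∉ J := fun b hb => hemp b (Finset.mem_insert_of_mem hb)
        have s1 := f2 hemp' b'
        have s2 := hsel l' b' hpp
        omega

/-- answer to an attack on a word -/
theorem attackI (hC : Code val) {J : Finset (Option (L × Bool))} {T : Finset I} (hG : Good val J T)
    (t : I) (ht : t ∈ T) :
    ∃ j ∈ J, nb val t j ∧ Good val (J.erase j) (T.erase t) := by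
  by_cases h10 : (hubs J).card = 10
  · have hK := two_hubs J
    have hcd := hG.card
    have hT20 : 20 ≤ T.card := by omega
    obtain ⟨t2, ht2, ht2n⟩ := Finset.exists_mem_ne (show 1 < T.card by omega) t
    have hch : ∃ l, l ∈ hubs J ∧ ∀ c ∈ J, c ≠ some (l, val t l) → ∃ t' ∈ T, t' ≠ t ∧ nb val t' c := by
      by_cases hex : ∃ c1 ∈ J, ∀ t' ∈ T, nb val t' c1 → t' = t
      · obtain ⟨c1, hc1, h1⟩ := hex
        rcases c1 with _ | ⟨l1, b1⟩
        · exact absurd (h1 t2 ht2 trivial) ht2n
        · obtain ⟨t', ht', hn⟩ := hG.hJ _ hc1
          have he := h1 t' ht' hn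
          subst he
          have hv : val t' l1 = b1 := hn
          have htc1 : ∀ l b, (∀ x ∈ T, val x l = b → x = t') → tc val T l b ≤ 1 := by
            intro l b hx
            unfold tc
            rw [Finset.card_le_one]
            intro x hx1 y hy1
            rw [Finset.mem_filter] at hx1 hy1
            rw [hx x hx1.1 hx1.2, hx y hy1.1 hy1.2]
          have hl1 : l1 ∈ hubs J := by
            by_contra hno
            have e1 := ((hG.fs h10 l1 hno).1 b1).1
            have e2 := htc1 l1 b1 h1
            omega
          refine ⟨l1, hl1, ?_⟩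
          intro c hcJ hne
          by_contra hno
          push Not at hno
          rcases c with _ | ⟨l2, b2⟩
          · exact hno t2 ht2 ht2n trivial
          · obtain ⟨t3, ht3, hn3⟩ := hG.hJ _ hcJ
            have he3 : t3 = t' := by
              by_contra h; exact hno t3 ht3 h hn3
            subst he3
            have hv3 : val t3 l2 = b2 := hn3
            have hl12 : l1 ≠ l2 := by
              rintro rfl
              apply hne
              rw [hv3]
            have e1 := htc1 l1 b1 h1
            have e2 := htc1 l2 b2 (by
              intro x hx hxv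
              by_contra h
              exact hno x hx h hxv)
            have e3 := tc_add (val := val) T l1 b1
            have e4 := tc_add (val := val) T l2 b2
            have e5 := tc_two hC T (!b1) (!b2) hl12
            omega
      · push Not at hex
        obtain ⟨l, hl⟩ := Finset.card_pos.mp (show 0 < (hubs J).card by omega)
        refine ⟨l, hl, ?_⟩
        intro c hcJ _
        obtain ⟨t', ht', hn, hne⟩ := hex c hcJ
        exact ⟨t', ht', hne, hn⟩
    obtain ⟨l, hl, hall⟩ := hch
    have hjJ : some (l, val t l) ∈ J := mem_hubs.mp hl _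
    have hsub : hubs (J.erase (some (l, val t l))) ⊆ (hubs J).erase l := by
      intro l' hl'
      rw [mem_hubs] at hl'
      rw [Finset.mem_erase, mem_hubs]
      refine ⟨?_, fun b => Finset.mem_of_mem_erase (hl' b)⟩
      rintro rfl
      exact absurd rfl (Finset.ne_of_mem_erase (hl' (val t l')))
    have hc9 : (hubs (J.erase (some (l, val t l)))).card ≤ 9 := by
      have := Finset.card_le_card hsub
      rw [Finset.card_erase_of_mem hl] at this
      omega
    have hcard : (J.erase (some (l, val t l))).card = (T.erase t).card := by
      rw [Finset.card_erase_of_mem hjJ, Finset.card_erase_of_mem ht, hcd]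
    have hTe : (T.erase t).card = T.card - 1 := Finset.card_erase_of_mem ht
    refine ⟨some (l, val t l), hjJ, rfl, hcard, ?_, ?_, by omega, by intro h; omega⟩
    · apply mat_high hC hcard (by omega)
      · intro c hcm
        obtain ⟨hne, hcJ⟩ := Finset.mem_erase.mp hcm
        obtain ⟨t', ht', htn, hn⟩ := hall c hcJ hne
        exact ⟨t', Finset.mem_erase.mpr ⟨htn, ht'⟩, hn⟩
      · intro t' _
        obtain ⟨h', hh', hne⟩ := Finset.exists_mem_ne (show 1 < (hubs J).card by omega) l
        refine ⟨some (h', val t' h'), Finset.mem_erase.mpr ⟨?_, mem_hubs.mp hh' _⟩, rfl⟩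
        intro h4
        simp only [Option.some.injEq, Prod.mk.injEq] at h4
        exact hne h4.1
    · intro c hcm
      by_cases hcj : c = some (l, val t l)
      · subst hcj
        exact ⟨t, Finset.notMem_erase _ _, rfl⟩
      · have hcJ : c ∉ J := fun h => hcm (Finset.mem_erase.mpr ⟨hcj, h⟩)
        obtain ⟨i, hi, hn⟩ := hG.dom c hcJ
        exact ⟨i, fun h => hi (Finset.mem_of_mem_erase h), hn⟩
  · obtain ⟨φ, h1, h2⟩ := hG.mat
    have hsub : hubs (J.erase (φ t)) ⊆ hubs J := by
      intro l' hl'
      rw [mem_hubs] at hl' ⊢
      exact fun b => Finset.mem_of_mem_erase (hl' b)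
    have hc9 : (hubs (J.erase (φ t))).card ≤ 9 := by
      have h3 := Finset.card_le_card hsub
      have h4 := hG.fc
      omega
    refine ⟨φ t, (h1 t ht).1, (h1 t ht).2, ?_, ⟨φ, ?_, ?_⟩, ?_, by omega, by intro h; omega⟩
    · rw [Finset.card_erase_of_mem (h1 t ht).1, Finset.card_erase_of_mem ht, hG.card]
    · intro x hx
      obtain ⟨hxn, hxT⟩ := Finset.mem_erase.mp hx
      refine ⟨Finset.mem_erase.mpr ⟨?_, (h1 x hxT).1⟩, (h1 x hxT).2⟩
      intro he
      exact hxn (h2 hxT ht he)
    · intro a ha b hb hab
      have ha' : a ∈ T.erase t := ha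
      have hb' : b ∈ T.erase t := hb
      exact h2 (Finset.mem_of_mem_erase ha') (Finset.mem_of_mem_erase hb') hab
    · intro c hcm
      by_cases hcj : c = φ t
      · subst hcj
        exact ⟨t, Finset.notMem_erase _ _, (h1 t ht).2⟩
      · have hcJ : c ∉ J := fun h => hcm (Finset.mem_erase.mpr ⟨hcj, h⟩)
        obtain ⟨i, hi, hn⟩ := hG.dom c hcJ
        exact ⟨i, fun h => hi (Finset.mem_of_mem_erase h), hn⟩

end Pool.Agent.W145.ED
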