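import Pool.Agent.W145.ED.Count

set_option autoImplicit false

namespace Pool.Agent.W145.ED

open Finset Classical

variable {L I : Type} [Fintype L] [DecidableEq L] [Fintype I] [DecidableEq I]

/-- pairs with a guard on both of their vertices -/
noncomputable def hubs (J : Finset (Option (L × Bool))) : Finset L :=
  univ.filter (fun l => ∀ b, some (l, b) ∈ J)

theorem mem_hubs {J : Finset (Option (L × Bool))} {l : L} :
    l ∈ hubs J ↔ ∀ b, some (l, b) ∈ J := by
  unfold hubs
  rw [Finset.mem_filter]
  simp

/-- the guard sets of the strategy: `J` are the guards on the side of the pairs, `T` the words without guard -/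
structure Good (val : I → L → Bool) (J : Finset (Option (L × Bool))) (T : Finset I) : Prop where
  card : J.card = T.card
  mat : ∃ φ : I → Option (L × Bool), (∀ t ∈ T, φ t ∈ J ∧ nb val t (φ t)) ∧ Set.InjOn φ T
  dom : ∀ c, c ∉ J → ∃ i, i ∉ T ∧ nb val i c
  fc : (hubs J).card ≤ 10
  fs : (hubs J).card = 10 → ∀ l, l ∉ hubs J →
    (∀ b, 2 ≤ tc val T l b ∧ 1 ≤ tc val Tᶜ l b) ∧ ((∀ b, some (l, b) ∉ J) → ∀ b, 2 ≤ tc val Tᶜ l b)

theorem two_hubs (J : Finset (Option (L × Bool))) : 2 * (hubs J).card ≤ J.card := by
  have h : ((hubs J ×ˢ (univ : Finset Bool)).image (fun p => (some p : Option (L × Bool)))) ⊆ J := by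
    intro c hc
    obtain ⟨⟨l, b⟩, hp, rfl⟩ := Finset.mem_image.mp hc
    exact mem_hubs.mp (Finset.mem_product.mp hp).1 b
  have h2 := Finset.card_le_card h
  rw [Finset.card_image_of_injective _ (Option.some_injective _), Finset.card_product] at h2
  simp at h2
  omega

theorem card_le_hubs (hL : Fintype.card L = 32) (J : Finset (Option (L × Bool))) :
    J.card ≤ 33 + (hubs J).card := by
  set Jf : Finset L := univ.filter (fun l => some (l, false) ∈ J) with hJf
  set Jt : Finset L := univ.filter (fun l => some (l, true) ∈ J) with hJt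
  have h1 : J ⊆ {none} ∪ (Jf.image (fun l => some (l, false)) ∪ Jt.image (fun l => some (l, true))) := by
    intro c hc
    rcases c with _ | ⟨l, b⟩
    · simp
    · cases b
      · apply Finset.mem_union_right
        apply Finset.mem_union_left
        exact Finset.mem_image.mpr ⟨l, Finset.mem_filter.mpr ⟨Finset.mem_univ _, hc⟩, rfl⟩
      · apply Finset.mem_union_right
        apply Finset.mem_union_right
        exact Finset.mem_image.mpr ⟨l, Finset.mem_filter.mpr ⟨Finset.mem_univ _, hc⟩, rfl⟩
  have h2 := Finset.card_le_card h1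
  have h3 := Finset.card_union_le ({none} : Finset (Option (L × Bool)))
    (Jf.image (fun l => some (l, false)) ∪ Jt.image (fun l => some (l, true)))
  have h4 := Finset.card_union_le (Jf.image (fun l => (some (l, false) : Option (L × Bool))))
    (Jt.image (fun l => some (l, true)))
  have h5 : (Jf.image (fun l => (some (l, false) : Option (L × Bool)))).card ≤ Jf.card :=
    Finset.card_image_le
  have h6 : (Jt.image (fun l => (some (l, true) : Option (L × Bool)))).card ≤ Jt.card :=
    Finset.card_image_le
  have h7 := Finset.card_union_add_card_inter Jf Jt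
  have h8 : (Jf ∪ Jt).card ≤ 32 := by
    rw [← hL]; exact Finset.card_le_univ _
  have h9 : (Jf ∩ Jt).card ≤ (hubs J).card := by
    apply Finset.card_le_card
    intro l hl
    obtain ⟨h10, h11⟩ := Finset.mem_inter.mp hl
    rw [mem_hubs]
    intro b
    cases b
    · exact (Finset.mem_filter.mp h10).2
    · exact (Finset.mem_filter.mp h11).2
  rw [Finset.card_singleton] at h3
  omega

variable {val : I → L → Bool}

theorem Good.hJ {J : Finset (Option (L × Bool))} {T : Finset I} (hG : Good val J T) :
    ∀ c ∈ J, ∃ t ∈ T, nb val t c := by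
  obtain ⟨φ, h1, h2⟩ := hG.mat
  have h3 : T.image φ = J := by
    apply Finset.eq_of_subset_of_card_le
    · intro c hc
      obtain ⟨t, ht, rfl⟩ := Finset.mem_image.mp hc
      exact (h1 t ht).1
    · rw [Finset.card_image_of_injOn h2, hG.card]
  intro c hc
  rw [← h3] at hc
  obtain ⟨t, ht, rfl⟩ := Finset.mem_image.mp hc
  exact ⟨t, ht, (h1 t ht).2⟩

theorem Good.P21 (hC : Code val) {J : Finset (Option (L × Bool))} {T : Finset I} (hG : Good val J T) :
    21 ≤ Tᶜ.card ∧ T.card ≤ 43 ∧ Tᶜ.card + T.card = 64 := by
  have h1 := card_le_hubs hC.cardL J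
  have h2 := hG.fc
  have h3 := hG.card
  have h4 := Finset.card_compl_add_card T
  rw [hC.cardI] at h4
  omega

/-- a guard moves from the word `t` to `c` -/
theorem imove {J : Finset (Option (L × Bool))} {T : Finset I}
    (hG : Good val J T) (hP : 21 ≤ Tᶜ.card) (c : Option (L × Bool)) (hc : c ∉ J) (t : I) (ht : t ∉ T)
    (hnb : nb val t c)
    (hsel : ∀ l b, (∀ b', c ≠ some (l, b')) → min (tc val Tᶜ l b) 2 ≤ tc val (insert t T)ᶜ l b)
    (hfc : (hubs (insert c J)).card ≤ 10)
    (hfs : (hubs (insert c J)).card = 10 → ∀ l, l ∉ hubs (insert c J) →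
      (∀ b, 2 ≤ tc val (insert t T) l b ∧ 1 ≤ tc val (insert t T)ᶜ l b) ∧
      ((∀ b, some (l, b) ∉ insert c J) → ∀ b, 2 ≤ tc val (insert t T)ᶜ l b)) :
    Good val (insert c J) (insert t T) := by
  refine ⟨?_, ?_, ?_, hfc, hfs⟩
  · rw [Finset.card_insert_of_notMem hc, Finset.card_insert_of_notMem ht, hG.card]
  · obtain ⟨φ, h1, h2⟩ := hG.mat
    refine ⟨Function.update φ t c, ?_, ?_⟩
    · intro x hx
      rcases Finset.mem_insert.mp hx with hxx | hxT
      · rw [hxx]
        simp only [Function.update_self]
        exact ⟨Finset.mem_insert_self _ _, hnb⟩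
      · have hxt : x ≠ t := fun h => ht (h ▸ hxT)
        rw [Function.update_of_ne hxt]
        exact ⟨Finset.mem_insert_of_mem (h1 x hxT).1, (h1 x hxT).2⟩
    · intro a ha b hb hab
      have ha' : a ∈ insert t T := ha
      have hb' : b ∈ insert t T := hb
      rcases Finset.mem_insert.mp ha' with haa | haT
      · rcases Finset.mem_insert.mp hb' with hbb | hbT
        · rw [haa, hbb]
        · have hbt : b ≠ t := fun h => ht (h ▸ hbT)
          rw [haa, Function.update_self, Function.update_of_ne hbt] at hab
          exact absurd (hab ▸ (h1 b hbT).1) hc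
      · have hat : a ≠ t := fun h => ht (h ▸ haT)
        rcases Finset.mem_insert.mp hb' with hbb | hbT
        · rw [hbb, Function.update_self, Function.update_of_ne hat] at hab
          exact absurd (hab ▸ (h1 a haT).1) hc
        · have hbt : b ≠ t := fun h => ht (h ▸ hbT)
          rw [Function.update_of_ne hat, Function.update_of_ne hbt] at hab
          exact h2 haT hbT hab
  · intro c' hc'
    rw [Finset.mem_insert, not_or] at hc'
    obtain ⟨hcc, hcJ⟩ := hc'
    rcases c' with _ | ⟨l', b'⟩
    · have h1 : 1 < Tᶜ.card := by omega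
      obtain ⟨i, hi, hit⟩ := Finset.exists_mem_ne h1 t
      refine ⟨i, ?_, trivial⟩
      rw [Finset.mem_insert, not_or]
      exact ⟨hit, Finset.mem_compl.mp hi⟩
    · have h1 : 1 ≤ tc val (insert t T)ᶜ l' b' := by
        obtain ⟨i, hi, hib⟩ := hG.dom _ hcJ
        have h2 : 1 ≤ tc val Tᶜ l' b' := tc_pos.mpr ⟨i, Finset.mem_compl.mpr hi, hib⟩
        by_cases hp : ∀ b'', c ≠ some (l', b'')
        · have := hsel l' b' hp
          omega
        · push Not at hp
          obtain ⟨b'', hb''⟩ := hp
          subst hb''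
          have h3 : val t l' = b'' := hnb
          have h4 : val t l' ≠ b' := by
            rw [h3]; rintro rfl; exact hcc rfl
          rw [tc_insert_compl_same h4]
          exact h2
      obtain ⟨i, hi, hib⟩ := tc_pos.mp h1
      exact ⟨i, Finset.mem_compl.mp hi, hib⟩

end Pool.Agent.W145.ED
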